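import Pool.Agent.H30.RK.Stm

/-! Module SOC of project RK (written by helper61 for helper30). -/

set_option autoImplicit false

namespace Pool.Agent.H61.RK

open Pool.Agent.H30.RK

section
variable {X : Type} [Group X]

/-- `A` is normalised by `L` -/
def Inv (L A : Subgroup X) : Prop := ∀ m ∈ L, ∀ a ∈ A, m * a * m⁻¹ ∈ A

/-- `M` is a minimal nontrivial subgroup normalised by `L` -/
def Mini (L M : Subgroup X) : Prop :=
  M ≠ ⊥ ∧ Inv L M ∧ ∀ A : Subgroup X, A ≤ M → Inv L A → A = ⊥ ∨ A = M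

/-- conjugate subgroup -/
abbrev cj (x : X) (S : Subgroup X) : Subgroup X := S.map (MulAut.conj x).toMonoidHom

lemma mem_cj {x : X} {S : Subgroup X} {y : X} : y ∈ cj x S ↔ x⁻¹ * y * x ∈ S := by
  constructor
  · rintro ⟨s, hs, rfl⟩
    have : x⁻¹ * (MulAut.conj x).toMonoidHom s * x = s := by
      simp [MulAut.conj_apply, mul_assoc]
    rw [this]
    exact hs
  · intro h
    exact ⟨_, h, by simp [MulAut.conj_apply, mul_assoc]⟩

lemma exists_mini [Finite X] (L B : Subgroup X) (hB : B ≠ ⊥) (hI : Inv L B) :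
    ∃ M : Subgroup X, M ≤ B ∧ Mini L M := by
  have hne : {A : Subgroup X | A ≤ B ∧ A ≠ ⊥ ∧ Inv L A}.Nonempty := ⟨B, le_refl _, hB, hI⟩
  obtain ⟨M, hM⟩ := (Set.toFinite {A : Subgroup X | A ≤ B ∧ A ≠ ⊥ ∧ Inv L A}).exists_minimal hne
  refine ⟨M, hM.prop.1, hM.prop.2.1, hM.prop.2.2, fun A hA hIA => ?_⟩
  by_cases h : A = ⊥
  · exact Or.inl h
  · exact Or.inr (le_antisymm hA (hM.le_of_le ⟨hA.trans hM.prop.1, h, hIA⟩ hA))

lemma Inv.mono {L L' A : Subgroup X} (h : Inv L A) (hL : L' ≤ L) : Inv L' A :=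
  fun m hm a ha => h m (hL hm) a ha

lemma Inv.inf {L A B : Subgroup X} (hA : Inv L A) (hB : Inv L B) : Inv L (A ⊓ B) :=
  fun m hm a ha => ⟨hA m hm a ha.1, hB m hm a ha.2⟩

lemma comm_of {A B : Subgroup X} (hAB : Inv A B) (hBA : Inv B A) (h : A ⊓ B = ⊥) :
    ∀ a ∈ A, ∀ b ∈ B, a * b = b * a := by
  intro a ha b hb
  have h1 : a * b * a⁻¹ * b⁻¹ ∈ A ⊓ B := by
    refine ⟨?_, B.mul_mem (hAB a ha b hb) (B.inv_mem hb)⟩
    have := A.mul_mem ha (hBA b hb a⁻¹ (A.inv_mem ha))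
    simpa [mul_assoc] using this
  rw [h, Subgroup.mem_bot] at h1
  have h2 := mul_inv_eq_one.1 h1
  exact (mul_inv_eq_iff_eq_mul.1 h2)

lemma Mini.inf_eq {L M M' : Subgroup X} (h : Mini L M) (h' : Mini L M') (hne : M ≠ M') :
    M ⊓ M' = ⊥ := by
  rcases h.2.2 (M ⊓ M') inf_le_left (h.2.1.inf h'.2.1) with h1 | h1
  · exact h1
  · rcases h'.2.2 (M ⊓ M') inf_le_right (h.2.1.inf h'.2.1) with h2 | h2
    · exact h2
    · exact absurd (h1.symm.trans h2) hne

/-- the set of the minimal `M`-invariant subgroups of minimal normal subgroups `M` -/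
def SS (X : Type) [Group X] : Set (Subgroup X) :=
  {S | ∃ M : Subgroup X, Mini ⊤ M ∧ S ≤ M ∧ Mini M S}

lemma ss_comm {S T : Subgroup X} (hS : S ∈ SS X) (hT : T ∈ SS X) (hne : S ≠ T) :
    ∀ a ∈ S, ∀ b ∈ T, a * b = b * a := by
  obtain ⟨M, hM, hSM, hS1⟩ := hS
  obtain ⟨M', hM', hTM, hT1⟩ := hT
  by_cases h : M = M'
  · subst h
    exact comm_of (hT1.2.1.mono hSM) (hS1.2.1.mono hTM) (hS1.inf_eq hT1 hne)
  · intro a ha b hb
    exact comm_of (hM'.2.1.mono le_top) (hM.2.1.mono le_top) (hM.inf_eq hM' h) a (hSM ha) b (hTM hb)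

lemma cj_ne {x : X} {S : Subgroup X} (h : S ≠ ⊥) : cj x S ≠ ⊥ := by
  obtain ⟨s, hs1⟩ := Subgroup.ne_bot_iff_exists_ne_one.1 h
  have hs : (s : X) ∈ S := s.2
  rw [Subgroup.ne_bot_iff_exists_ne_one]
  refine ⟨⟨x * s * x⁻¹, mem_cj.2 (by simp [mul_assoc])⟩, fun h1 => hs1 ?_⟩
  have h2 : x * (s : X) * x⁻¹ = 1 := congrArg Subtype.val h1
  have h3 : (s : X) = 1 := by
    have : (s : X) = x⁻¹ * (x * s * x⁻¹) * x := by group
    rw [this, h2]
    group
  exact Subtype.ext h3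

lemma cj_cj (x y : X) (S : Subgroup X) : cj x (cj y S) = cj (x * y) S := by
  ext z
  rw [mem_cj, mem_cj, mem_cj]
  simp [mul_assoc]

lemma cj_one (S : Subgroup X) : cj 1 S = S := by
  ext z
  rw [mem_cj]
  simp

lemma cj_le {x : X} {S T : Subgroup X} (h : S ≤ T) : cj x S ≤ cj x T := Subgroup.map_mono h

lemma cj_bot (x : X) : cj x (⊥ : Subgroup X) = ⊥ := Subgroup.map_bot _

lemma cj_eq_of_inv {M : Subgroup X} (h : Inv ⊤ M) (x : X) : cj x M = M := by
  have h1 : ∀ y : X, cj y M ≤ M := by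
    intro y z hz
    rw [mem_cj] at hz
    have := h y trivial _ hz
    simpa [mul_assoc] using this
  refine le_antisymm (h1 x) ?_
  have := cj_le (x := x) (h1 x⁻¹)
  rwa [cj_cj, mul_inv_cancel, cj_one] at this

lemma inv_cj {M A : Subgroup X} (hM : Inv ⊤ M) (hA : Inv M A) (x : X) : Inv M (cj x A) := by
  intro m hm a ha
  rw [mem_cj] at ha ⊢
  have h1 : x⁻¹ * m * x ∈ M := by
    have := hM x⁻¹ trivial m hm
    simpa using this
  have := hA _ h1 _ ha
  have e : x⁻¹ * m * x * (x⁻¹ * a * x) * (x⁻¹ * m * x)⁻¹ = x⁻¹ * (m * a * m⁻¹) * x := by group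
  rwa [e] at this

lemma ss_conj {S : Subgroup X} (hS : S ∈ SS X) (x : X) : cj x S ∈ SS X := by
  obtain ⟨M, hM, hSM, hS1⟩ := hS
  refine ⟨M, hM, ?_, cj_ne hS1.1, inv_cj hM.2.1 hS1.2.1 x, fun A hA hIA => ?_⟩
  · have := cj_le (x := x) hSM
    rwa [cj_eq_of_inv hM.2.1] at this
  · have h1 : cj x⁻¹ A ≤ S := by
      have := cj_le (x := x⁻¹) hA
      rwa [cj_cj, inv_mul_cancel, cj_one] at this
    have h3 : cj x (cj x⁻¹ A) = A := by rw [cj_cj, mul_inv_cancel, cj_one]
    rcases hS1.2.2 _ h1 (inv_cj hM.2.1 hIA _) with h2 | h2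
    · left
      rw [← h3, h2, cj_bot]
    · right
      rw [← h3, h2]

/-- a minimal normal subgroup is generated by the conjugates of a nontrivial subgroup -/
lemma eq_iSup {M S : Subgroup X} (hM : Mini ⊤ M) (hSM : S ≤ M) (hS : S ≠ ⊥) :
    M = ⨆ x : X, cj x S := by
  have hle : (⨆ x : X, cj x S) ≤ M := by
    refine iSup_le fun x => ?_
    have := cj_le (x := x) hSM
    rwa [cj_eq_of_inv hM.2.1] at this
  have hle' : ∀ y : X, cj y (⨆ x : X, cj x S) ≤ ⨆ x : X, cj x S := by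
    intro y
    rw [cj, Subgroup.map_iSup]
    refine iSup_le fun x => ?_
    have : Subgroup.map (MulAut.conj y).toMonoidHom (cj x S) = cj (y * x) S := cj_cj y x S
    rw [this]
    exact le_iSup (fun x => cj x S) (y * x)
  have hinv : Inv ⊤ (⨆ x : X, cj x S) := by
    intro m _ a ha
    apply hle' m
    rw [mem_cj]
    have : m⁻¹ * (m * a * m⁻¹) * m = a := by group
    rwa [this]
  have hS' : S ≤ ⨆ x : X, cj x S := by
    have := le_iSup (fun x => cj x S) 1
    simpa only [cj_one] using this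
  rcases hM.2.2 _ hle hinv with h | h
  · exact absurd (le_bot_iff.1 (hS'.trans h.le)) hS
  · exact h.symm

lemma ss_simple {S : Subgroup X} (hS : S ∈ SS X) : IsSimpleGroup S := by
  have hS' := hS
  obtain ⟨M, hM, hSM, hS1⟩ := hS
  have hnt : Nontrivial S := (Subgroup.nontrivial_iff_ne_bot S).2 hS1.1
  refine ⟨fun H hH => ?_⟩
  have hA : H.map S.subtype ≤ S := by
    rintro _ ⟨a, -, rfl⟩
    exact a.2
  have hIS : Inv S (H.map S.subtype) := by
    rintro m hm _ ⟨a, ha, rfl⟩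
    exact ⟨⟨m, hm⟩ * a * ⟨m, hm⟩⁻¹, hH.conj_mem a ha ⟨m, hm⟩, rfl⟩
  -- every conjugate of `S` normalises it
  have hIc : ∀ x : X, Inv (cj x S) (H.map S.subtype) := by
    intro x
    by_cases h : cj x S = S
    · rw [h]; exact hIS
    · intro m hm a ha
      have := ss_comm (ss_conj hS' x) hS' h m hm a (hA ha)
      rw [this, mul_inv_cancel_right]
      exact ha
  have hIM : Inv M (H.map S.subtype) := by
    have h1 : M ≤ Subgroup.normalizer ((H.map S.subtype : Subgroup X) : Set X) := by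
      rw [eq_iSup hM hSM hS1.1]
      refine iSup_le fun x m hm => ?_
      rw [Subgroup.mem_normalizer_iff]
      intro h
      constructor
      · exact hIc x m hm h
      · intro h2
        have := hIc x m⁻¹ ((cj x S).inv_mem hm) _ h2
        have e : m⁻¹ * (m * h * m⁻¹) * m⁻¹⁻¹ = h := by group
        rwa [e] at this
    intro m hm a ha
    exact (Subgroup.mem_normalizer_iff.1 (h1 hm) a).1 ha
  rcases hS1.2.2 _ hA hIM with h | h
  · left
    exact (Subgroup.map_eq_bot_iff_of_injective _ S.subtype_injective).1 h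
  · right
    rw [eq_top_iff]
    intro a _
    have : (a : X) ∈ H.map S.subtype := by rw [h]; exact a.2
    obtain ⟨b, hb, hba⟩ := this
    have : b = a := Subtype.ext hba
    rwa [← this]

lemma ss_nonab (hX : ∀ A : Subgroup X, A.Normal → Group.IsSolvable A → A = ⊥)
    {S : Subgroup X} (hS : S ∈ SS X) : ∃ a ∈ S, ∃ b ∈ S, a * b ≠ b * a := by
  by_contra hcon
  push Not at hcon
  have hS' := hS
  obtain ⟨M, hM, hSM, hS1⟩ := hS
  have hcc : ∀ x y : X, cj x S ≤ Subgroup.centralizer ((cj y S : Subgroup X) : Set X) := by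
    intro x y a ha
    rw [Subgroup.mem_centralizer_iff]
    intro b hb
    by_cases h : cj x S = cj y S
    · have ha' : a ∈ cj y S := h ▸ ha
      rw [mem_cj] at ha'
      have hb' : y⁻¹ * b * y ∈ S := mem_cj.1 hb
      have := hcon _ ha' _ hb'
      have e1 : y⁻¹ * a * y * (y⁻¹ * b * y) = y⁻¹ * (a * b) * y := by group
      have e2 : y⁻¹ * b * y * (y⁻¹ * a * y) = y⁻¹ * (b * a) * y := by group
      rw [e1, e2] at this
      exact (mul_left_cancel (mul_right_cancel this)).symm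
    · exact (ss_comm (ss_conj hS' x) (ss_conj hS' y) h a ha b hb).symm
  have h1 : ∀ y : X, M ≤ Subgroup.centralizer ((cj y S : Subgroup X) : Set X) := by
    intro y
    rw [eq_iSup hM hSM hS1.1]
    exact iSup_le fun x => hcc x y
  have h2 : M ≤ Subgroup.centralizer ((M : Subgroup X) : Set X) := by
    have h3 : (⨆ x : X, cj x S) ≤ Subgroup.centralizer ((M : Subgroup X) : Set X) :=
      iSup_le fun y => Subgroup.le_centralizer_iff.1 (h1 y)
    exact (eq_iSup hM hSM hS1.1).le.trans h3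
  have hcomm : ∀ a b : M, a * b = b * a := by
    intro a b
    have := Subgroup.mem_centralizer_iff.1 (h2 b.2) a a.2
    exact Subtype.ext this
  have hnorm : M.Normal := ⟨fun a ha g => hM.2.1 g trivial a ha⟩
  have hsol : Group.IsSolvable M := Group.isSolvable_of_comm hcomm
  exact hM.1 (hX M hnorm hsol)

end

/-- Module SOC. -/
theorem soc : S_SOC := by
  intro X _ _ hX
  refine ⟨SS X, fun S hS => ss_simple hS, fun S hS => ss_nonab hX hS,
    fun S hS T hT hne => ss_comm hS hT hne, fun S hS x => ss_conj hS x, ?_⟩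
  intro x hx
  by_contra hx1
  let C : Subgroup X := ⨅ S ∈ SS X, Subgroup.centralizer ((S : Subgroup X) : Set X)
  have memC : ∀ y : X, y ∈ C ↔ ∀ S ∈ SS X, ∀ a ∈ S, y * a = a * y := by
    intro y
    simp only [C, Subgroup.mem_iInf, Subgroup.mem_centralizer_iff]
    exact ⟨fun h S hS a ha => (h S hS a ha).symm, fun h S hS a ha => (h S hS a ha).symm⟩
  have hC : C ≠ ⊥ := by
    intro h
    have : x ∈ C := (memC x).2 hx
    rw [h, Subgroup.mem_bot] at this
    exact hx1 this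
  have hI : Inv ⊤ C := by
    intro m _ y hy
    rw [memC] at hy ⊢
    intro S hS a ha
    have h1 : m⁻¹ * a * m ∈ cj m⁻¹ S := by
      rw [mem_cj]
      have : m⁻¹⁻¹ * (m⁻¹ * a * m) * m⁻¹ = a := by group
      rwa [this]
    have h2 := hy _ (ss_conj hS m⁻¹) _ h1
    calc m * y * m⁻¹ * a = m * (y * (m⁻¹ * a * m)) * m⁻¹ := by group
      _ = m * (m⁻¹ * a * m * y) * m⁻¹ := by rw [h2]
      _ = a * (m * y * m⁻¹) := by group
  obtain ⟨M, hMC, hM⟩ := exists_mini ⊤ C hC hI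
  obtain ⟨S, hSM, hS⟩ := exists_mini M M hM.1 (fun m hm a ha => M.mul_mem (M.mul_mem hm ha) (M.inv_mem hm))
  have hS' : S ∈ SS X := ⟨M, hM, hSM, hS⟩
  obtain ⟨a, ha, b, hb, hab⟩ := ss_nonab hX hS'
  exact hab ((memC a).1 (hMC (hSM ha)) S hS' b hb)

end Pool.Agent.H61.RK
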